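import Pool.Agent.H878R4.SP.Met

/-!
Summary: metrics on `S^m × S^n` given by a cometric `W` on `ℝ^(m+1) × ℝ^(n+1)`.
-/

open Bundle Manifold ContDiff VectorField Filter Metric
open scoped Topology

noncomputable section

namespace Pool.Agent.H821R5.SP

open Pool.Agent.H821R2 Pool.Agent.H821R3

open scoped RealInnerProductSpace

variable {m n : ℕ}

instance : Nontrivial (EM 2 2) := inferInstance
instance : Nontrivial (EM 3 2) := inferInstance
instance : Nontrivial (EM 3 3) := inferInstance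

/-- If the curvature expression of a cometric `W` is positive then `S^m × S^n` carries a metric of
positive sectional curvature (with cometric `W`). -/
theorem exists_positive [Nontrivial (EM m n)] {W : AA m n → AA m n →L[ℝ] AA m n} (hW : Cometric W)
    (hpos : ∀ z a b γ : AA m n, ‖z.1‖ = 1 → ‖z.2‖ = 1 → ⟪z.1, a.1⟫ = 0 → ⟪z.2, a.2⟫ = 0 →
      ⟪z.1, b.1⟫ = 0 → ⟪z.2, b.2⟫ = 0 → pr a a = 1 → pr b b = 1 → pr a b = 0 →
      ⟪z.1, γ.1⟫ = 0 → ⟪z.2, γ.2⟫ = 0 → W z γ = Br W a b z → 0 < Pexp W z a b γ) :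
    ∃ (g : ContMDiffRiemannianMetric (IM m n) ∞ (EM m n)
        (fun x : MM m n => TangentSpace (IM m n) x))
      (cov : CovariantDerivative (IM m n) (EM m n) (TangentSpace (IM m n) : MM m n → Type _))
      (R : CurvField (IM m n) (MM m n)),
      IsDual g W ∧ IsLeviCivita g cov ∧ IsRiemannTensor cov R ∧
        ∀ p u v, OrthoPair g p u v → 0 < sec g R p u v := by
  obtain ⟨g, hg⟩ := exists_metric hW
  obtain ⟨cov, R, h, hR⟩ := exists_LC hW hg
  exact ⟨g, cov, R, hg, h, hR, fun p u v huv => sec_pos hW hg h hR hpos p u v huv⟩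

end Pool.Agent.H821R5.SP
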