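import Pool.Agent.H821R5.Field
import Pool.Agent.H821R3.Der

/-!
General spheres (helper878, after helper907): metrics on `S^m × S^n` given by a cometric `W`.
-/

open Bundle Manifold ContDiff VectorField Filter Metric
open scoped Topology

noncomputable section

namespace Pool.Agent.H821R5.SP

open Pool.Agent.H821R2 Pool.Agent.H821R3

open scoped RealInnerProductSpace

variable {m n : ℕ}

/-- the ambient space `ℝ^(m+1) × ℝ^(n+1)` -/
abbrev AA (m n : ℕ) : Type := EV (m + 1) × EV (n + 1)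

/-- the Euclidean pairing of `ℝ^(m+1) × ℝ^(n+1)` -/
def pr (a b : (AA m n)) : ℝ := ⟪a.1, b.1⟫ + ⟪a.2, b.2⟫

/-- A smooth symmetric matrix function on `ℝ^(m+1) × ℝ^(n+1)` which restricts to a cometric on `S^m × S^n`:
its values are tangent to `S^m × S^n` and it is positive definite on tangent (co)vectors. -/
structure Cometric (W : (AA m n) → (AA m n) →L[ℝ] (AA m n)) : Prop where
  smooth : ContDiff ℝ ∞ W
  symm : ∀ (z a b : (AA m n)), pr (W z a) b = pr a (W z b)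
  tan1 : ∀ z : (AA m n), ‖z.1‖ = 1 → ‖z.2‖ = 1 → ∀ a, ⟪z.1, (W z a).1⟫ = 0
  tan2 : ∀ z : (AA m n), ‖z.1‖ = 1 → ‖z.2‖ = 1 → ∀ a, ⟪z.2, (W z a).2⟫ = 0
  pos : ∀ z : (AA m n), ‖z.1‖ = 1 → ‖z.2‖ = 1 → ∀ a, ⟪z.1, a.1⟫ = 0 → ⟪z.2, a.2⟫ = 0 → a ≠ 0 →
    0 < pr a (W z a)

/-- the point of `ℝ^(m+1) × ℝ^(n+1)` -/
def zz (p : (MM m n)) : (AA m n) := (P1 p, P2 p)

/-- the differential of the inclusion `S^m × S^n → ℝ^(m+1) × ℝ^(n+1)` -/
def dd (p : (MM m n)) (v : TangentSpace (IM m n) p) : (AA m n) := (d1 p v, d2 p v)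

/-- `g` is the metric with cometric `W`: the vector `X` with `dι(X) = W(ι(p)) e` is the gradient of
`⟨e, ι⟩` at `p`. -/
def IsDual (g : ContMDiffRiemannianMetric (IM m n) ∞ (EM m n)
    (fun x : (MM m n) => TangentSpace (IM m n) x)) (W : (AA m n) → (AA m n) →L[ℝ] (AA m n)) : Prop :=
  ∀ (p : (MM m n)) (e : (AA m n)) (X : TangentSpace (IM m n) p), dd p X = W (zz p) e →
    ∀ v : TangentSpace (IM m n) p, g.inner p X v = pr e (dd p v)

end Pool.Agent.H821R5.SP
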