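import Pool.Agent.H893R5.HO.RiemEx
import Pool.Agent.H878R4.SP.Reduce

/-!
ROOM HO: frame data on `S^m × S^n`, the metric with a given cometric, its Levi-Civita connection and
Riemann tensor.
-/

open Bundle Manifold ContDiff ContinuousLinearMap Filter VectorField Metric
open scoped Topology

set_option autoImplicit false
set_option linter.unusedSectionVars false

noncomputable section

namespace Pool.Agent.H821R5.SP

open Pool.Agent.H821R2 Pool.Agent.H821R3 Pool.Agent.H893R5.HO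

open scoped RealInnerProductSpace

variable {m n : ℕ}

/-- standard basis of `ℝ³` -/
def bv {k : ℕ} (i : Fin k) : EV k := EuclideanSpace.single i (1 : ℝ)

theorem inner_bv {k : ℕ} (i : Fin k) (a : EV k) : ⟪bv i, a⟫ = a i := by
  simp [bv, EuclideanSpace.inner_single_left]

theorem sum_bv {k : ℕ} (a : EV k) : ∑ i, a i • bv i = a := by
  ext j
  simp [bv, Finset.sum_apply, Pi.single_apply]

/-- the field on the first factor -/
theorem exists_e1 (i : Fin (m + 1)) : ∃ Z : Π p : (MM m n), TangentSpace (IM m n) p, SmV Z ∧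
    ∀ p, d1 p (Z p) = bv i - ⟪bv i, P1 p⟫ • P1 p ∧ d2 p (Z p) = 0 := by
  refine exists_field (A := fun p => bv i - ⟪bv i, P1 p⟫ • P1 p) (B := fun _ => 0) ?_
    contMDiff_const ?_ (fun p => by simp)
  · have h1 : ContMDiff (IM m n) 𝓘(ℝ, ℝ) ∞ (fun p => ⟪bv i, P1 p⟫) :=
      (innerSL ℝ (bv i)).contMDiff.comp contMDiff_P1
    exact contMDiff_const.sub (h1.smul contMDiff_P1)
  · intro p
    have h2 : ⟪(p.1 : EV (m + 1)), (p.1 : EV (m + 1))⟫ = (1 : ℝ) := by
      have := norm_P1 p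
      rw [real_inner_self_eq_norm_sq]
      change ‖P1 p‖ ^ 2 = 1
      rw [this]
      norm_num
    rw [inner_sub_right, inner_smul_right]
    change ⟪(p.1 : EV (m + 1)), bv i⟫ - ⟪bv i, (p.1 : EV (m + 1))⟫ * ⟪(p.1 : EV (m + 1)), (p.1 : EV (m + 1))⟫ = 0
    rw [h2, real_inner_comm]
    ring

/-- the field on the second factor -/
theorem exists_e2 (i : Fin (n + 1)) : ∃ Z : Π p : (MM m n), TangentSpace (IM m n) p, SmV Z ∧
    ∀ p, d1 p (Z p) = 0 ∧ d2 p (Z p) = bv i - ⟪bv i, P2 p⟫ • P2 p := by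
  refine exists_field (A := fun _ => 0) (B := fun p => bv i - ⟪bv i, P2 p⟫ • P2 p)
    contMDiff_const ?_ (fun p => by simp) ?_
  · have h1 : ContMDiff (IM m n) 𝓘(ℝ, ℝ) ∞ (fun p => ⟪bv i, P2 p⟫) :=
      (innerSL ℝ (bv i)).contMDiff.comp contMDiff_P2
    exact contMDiff_const.sub (h1.smul contMDiff_P2)
  · intro p
    have h2 : ⟪(p.2 : EV (n + 1)), (p.2 : EV (n + 1))⟫ = (1 : ℝ) := by
      have := norm_P2 p
      rw [real_inner_self_eq_norm_sq]
      change ‖P2 p‖ ^ 2 = 1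
      rw [this]
      norm_num
    rw [inner_sub_right, inner_smul_right]
    change ⟪(p.2 : EV (n + 1)), bv i⟫ - ⟪bv i, (p.2 : EV (n + 1))⟫ * ⟪(p.2 : EV (n + 1)), (p.2 : EV (n + 1))⟫ = 0
    rw [h2, real_inner_comm]
    ring

/-- the six ambient coordinates -/
abbrev Ix (m n : ℕ) : Type := Fin (m + 1) ⊕ Fin (n + 1)

/-- standard basis of `ℝ^(m+1) × ℝ^(n+1)` -/
def eps : (Ix m n) → (AA m n)
  | .inl i => (bv i, 0)
  | .inr i => (0, bv i)

/-- coordinate functions -/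
def co (q : (Ix m n)) (p : (MM m n)) : ℝ := pr (eps q) (zz p)

theorem smooth_co (q : (Ix m n)) : Sm (IM m n) (co q) := by
  have h1 : ContMDiff (IM m n) 𝓘(ℝ, ℝ) ∞ (fun p => ⟪(eps q).1, P1 p⟫) :=
    (innerSL ℝ (eps q).1).contMDiff.comp contMDiff_P1
  have h2 : ContMDiff (IM m n) 𝓘(ℝ, ℝ) ∞ (fun p => ⟪(eps q).2, P2 p⟫) :=
    (innerSL ℝ (eps q).2).contMDiff.comp contMDiff_P2
  exact h1.add h2

theorem d_co (q : (Ix m n)) (p : (MM m n)) (v : TangentSpace (IM m n) p) :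
    mvfderiv (IM m n) (co q) p v = pr (eps q) (dd p v) := by
  have h1 : ContMDiff (IM m n) 𝓘(ℝ, ℝ) ∞ (fun p => ⟪(eps q).1, P1 p⟫) :=
    (innerSL ℝ (eps q).1).contMDiff.comp contMDiff_P1
  have h2 : ContMDiff (IM m n) 𝓘(ℝ, ℝ) ∞ (fun p => ⟪(eps q).2, P2 p⟫) :=
    (innerSL ℝ (eps q).2).contMDiff.comp contMDiff_P2
  have e : co q = (fun p => ⟪(eps q).1, P1 p⟫) + (fun p => ⟪(eps q).2, P2 p⟫) := rfl
  rw [e, mvfderiv_add (h1.mdifferentiableAt (by simp)) (h2.mdifferentiableAt (by simp)), add_apply]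
  have e1 := d1_inner (eps q).1 p v
  have e2 := d2_inner (eps q).2 p v
  exact congrArg₂ (· + ·) e1 e2

/-- the frame fields -/
def fe : (Ix m n) → Π p : (MM m n), TangentSpace (IM m n) p
  | .inl i => (exists_e1 i).choose
  | .inr i => (exists_e2 i).choose

theorem smooth_fe (q : (Ix m n)) : SmV (fe q) := by
  rcases q with i | i
  · exact (exists_e1 i).choose_spec.1
  · exact (exists_e2 i).choose_spec.1

theorem frame_repr (p : (MM m n)) (v : TangentSpace (IM m n) p) :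
    ∑ q, (mvfderiv (IM m n) (co q) p v) • fe q p = v := by
  have k1 : ∀ i, mvfderiv (IM m n) (co (.inl i)) p v = (d1 p v) i := by
    intro i
    rw [d_co]
    change ⟪bv i, d1 p v⟫ + ⟪(0 : EV (n + 1)), d2 p v⟫ = _
    rw [inner_zero_left, add_zero, inner_bv]
  have k2 : ∀ i, mvfderiv (IM m n) (co (.inr i)) p v = (d2 p v) i := by
    intro i
    rw [d_co]
    change ⟪(0 : EV (m + 1)), d1 p v⟫ + ⟪bv i, d2 p v⟫ = _
    rw [inner_zero_left, zero_add, inner_bv]
  have f1 : ∀ i, d1 p (fe (.inl i) p) = bv i - ⟪bv i, P1 p⟫ • P1 p ∧ d2 p (fe (.inl i) p) = 0 :=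
    fun i => (exists_e1 i).choose_spec.2 p
  have f2 : ∀ i, d1 p (fe (.inr i) p) = 0 ∧ d2 p (fe (.inr i) p) = bv i - ⟪bv i, P2 p⟫ • P2 p :=
    fun i => (exists_e2 i).choose_spec.2 p
  have key : ∀ {k : ℕ} (a x : EV k), ⟪x, a⟫ = 0 → ∑ i, a i • (bv i - ⟪bv i, x⟫ • x) = a := by
    intro k a x hx
    have e : ∑ i, a i • (bv i - ⟪bv i, x⟫ • x) = ∑ i, a i • bv i -
        (∑ i, a i * ⟪bv i, x⟫) • x := by
      rw [Finset.sum_smul, ← Finset.sum_sub_distrib]
      refine Finset.sum_congr rfl fun i _ => ?_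
      module
    have e2 : ∑ i, a i * ⟪bv i, x⟫ = 0 := by
      have : ⟪x, a⟫ = ∑ i, a i * ⟪bv i, x⟫ := by
        conv_lhs => rw [← sum_bv a, inner_sum]
        refine Finset.sum_congr rfl fun i _ => ?_
        rw [inner_smul_right, real_inner_comm]
      rw [← this, hx]
    rw [e, e2, sum_bv]
    simp
  apply d_inj p
  · rw [map_sum, Fintype.sum_sum_type]
    simp only [map_smul, k1, k2, (f1 _).1, (f2 _).1, smul_zero, Finset.sum_const_zero, add_zero]
    exact key _ _ (d1_orth p v)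
  · rw [map_sum, Fintype.sum_sum_type]
    simp only [map_smul, k1, k2, (f1 _).2, (f2 _).2, smul_zero, Finset.sum_const_zero, zero_add]
    exact key _ _ (d2_orth p v)

/-- frame data on `S^m × S^n` -/
def fr : FrameData (IM m n) (MM m n) (Ix m n) where
  f := co
  e := fe
  hf := smooth_co
  he := smooth_fe
  repr := frame_repr

/-- gradient fields of the coordinates -/
theorem exists_grad {W : (AA m n) → (AA m n) →L[ℝ] (AA m n)} (hW : Cometric W) (a : (AA m n)) :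
    ∃ Z : Π p : (MM m n), TangentSpace (IM m n) p, SmV Z ∧ ∀ p, dd p (Z p) = W (zz p) a := by
  have hz : ContMDiff (IM m n) 𝓘(ℝ, (AA m n)) ∞ zz := contMDiff_P1.prodMk_space contMDiff_P2
  have h1 : ContMDiff (IM m n) 𝓘(ℝ, (AA m n)) ∞ (fun p => W (zz p) a) := by
    have h2 : ContDiff ℝ ∞ (fun z => W z a) := hW.smooth.clm_apply contDiff_const
    exact h2.contMDiff.comp hz
  have h3 : ContMDiff (IM m n) 𝓘(ℝ, EV (m + 1)) ∞ (fun p => (W (zz p) a).1) :=
    (ContinuousLinearMap.fst ℝ (EV (m + 1)) (EV (n + 1))).contMDiff.comp h1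
  have h4 : ContMDiff (IM m n) 𝓘(ℝ, EV (n + 1)) ∞ (fun p => (W (zz p) a).2) :=
    (ContinuousLinearMap.snd ℝ (EV (m + 1)) (EV (n + 1))).contMDiff.comp h1
  obtain ⟨Z, hZ, hZ2⟩ := exists_field h3 h4
    (fun p => hW.tan1 (zz p) (norm_P1 p) (norm_P2 p) a)
    (fun p => hW.tan2 (zz p) (norm_P1 p) (norm_P2 p) a)
  exact ⟨Z, hZ, fun p => Prod.ext (hZ2 p).1 (hZ2 p).2⟩

/-- the Levi-Civita connection and the Riemann tensor of the metric with cometric `W` exist -/
theorem exists_LC [Nontrivial (EM m n)] {W : (AA m n) → (AA m n) →L[ℝ] (AA m n)} (hW : Cometric W)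
    {g : ContMDiffRiemannianMetric (IM m n) ∞ (EM m n)
      (fun x : (MM m n) => TangentSpace (IM m n) x)} (hg : IsDual g W) :
    ∃ (cov : CovariantDerivative (IM m n) (EM m n)
      (TangentSpace (IM m n) : (MM m n) → Type _)) (R : CurvField (IM m n) (MM m n)),
      IsLeviCivita g cov ∧ IsRiemannTensor cov R := by
  choose X hX hX2 using fun q : (Ix m n) => exists_grad hW (eps q)
  have h := fr.isLeviCivita_lc g hX (by
    intro q p v
    rw [hg p (eps q) (X q p) (hX2 q p) v]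
    exact (d_co q p v).symm)
  obtain ⟨R, hR⟩ := exists_riemann_of_LC h
  exact ⟨_, R, h, hR⟩

end Pool.Agent.H821R5.SP
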