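import Pool.Agent.H878R4.SP.Fr

/-!
ROOM HO: the metric `(W + N)⁻¹` on `S^m × S^n` with a given cometric `W`.
-/

open Bundle Manifold ContDiff ContinuousLinearMap Filter VectorField Metric
open scoped Topology

set_option autoImplicit false
set_option linter.unusedSectionVars false

noncomputable section

namespace Pool.Agent.H821R5.SP

open Pool.Agent.H821R2 Pool.Agent.H821R3 Pool.Agent.H893R5.HO

open scoped RealInnerProductSpace

variable {m n : ℕ}

theorem pr_eq_zero {a : (AA m n)} (h : ∀ b, pr a b = 0) : a = 0 := by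
  have := h a
  simp only [pr, real_inner_self_eq_norm_sq] at this
  have h1 : ‖a.1‖ = 0 := by nlinarith [sq_nonneg ‖a.1‖, sq_nonneg ‖a.2‖]
  have h2 : ‖a.2‖ = 0 := by nlinarith [sq_nonneg ‖a.1‖, sq_nonneg ‖a.2‖]
  exact Prod.ext (norm_eq_zero.1 h1) (norm_eq_zero.1 h2)

/-- the pairing as a bilinear map -/
def prB : (AA m n) →L[ℝ] (AA m n) →L[ℝ] ℝ :=
  ((innerSL ℝ (E := EV (m + 1))).bilinearComp (ContinuousLinearMap.fst ℝ (EV (m + 1)) (EV (n + 1)))
    (ContinuousLinearMap.fst ℝ (EV (m + 1)) (EV (n + 1)))) +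
  ((innerSL ℝ (E := EV (n + 1))).bilinearComp (ContinuousLinearMap.snd ℝ (EV (m + 1)) (EV (n + 1)))
    (ContinuousLinearMap.snd ℝ (EV (m + 1)) (EV (n + 1))))

theorem prB_apply (a b : (AA m n)) : prB a b = pr a b := rfl

/-- the projection to the normal space (for unit `z.1`, `z.2`) -/
def nrm (z : (AA m n)) : (AA m n) →L[ℝ] (AA m n) :=
  ((innerSL ℝ z.1).comp (ContinuousLinearMap.fst ℝ (EV (m + 1)) (EV (n + 1)))).smulRight ((z.1, 0) : (AA m n)) +
  ((innerSL ℝ z.2).comp (ContinuousLinearMap.snd ℝ (EV (m + 1)) (EV (n + 1)))).smulRight ((0, z.2) : (AA m n))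

theorem nrm_apply (z a : (AA m n)) : nrm z a = (⟪z.1, a.1⟫ • z.1, ⟪z.2, a.2⟫ • z.2) := by
  simp [nrm]

theorem smooth_nrm : ContDiff ℝ ∞ (nrm (m := m) (n := n)) := by
  have h1 : ContDiff ℝ ∞ (fun z : (AA m n) => (innerSL ℝ z.1).comp (ContinuousLinearMap.fst ℝ (EV (m + 1)) (EV (n + 1)))) :=
    ((innerSL ℝ (E := EV (m + 1))).contDiff.comp contDiff_fst).clm_comp contDiff_const
  have h2 : ContDiff ℝ ∞ (fun z : (AA m n) => (innerSL ℝ z.2).comp (ContinuousLinearMap.snd ℝ (EV (m + 1)) (EV (n + 1)))) :=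
    ((innerSL ℝ (E := EV (n + 1))).contDiff.comp contDiff_snd).clm_comp contDiff_const
  have h3 : ContDiff ℝ ∞ (fun z : (AA m n) => ((z.1, 0) : (AA m n))) := contDiff_fst.prodMk contDiff_const
  have h4 : ContDiff ℝ ∞ (fun z : (AA m n) => ((0, z.2) : (AA m n))) := contDiff_const.prodMk contDiff_snd
  exact (h1.smulRight h3).add (h2.smulRight h4)

theorem pr_nrm (z a b : (AA m n)) : pr (nrm z a) b = ⟪z.1, a.1⟫ * ⟪z.1, b.1⟫ + ⟪z.2, a.2⟫ * ⟪z.2, b.2⟫ := by
  rw [nrm_apply]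
  simp only [pr, inner_smul_left]
  simp

theorem nrm_symm (z a b : (AA m n)) : pr (nrm z a) b = pr a (nrm z b) := by
  rw [pr_comm a, pr_nrm, pr_nrm]
  ring

section

variable [Nontrivial (EM m n)] {W : (AA m n) → (AA m n) →L[ℝ] (AA m n)} (hW : Cometric W)

include hW

theorem W_nrm {z : (AA m n)} (h1 : ‖z.1‖ = 1) (h2 : ‖z.2‖ = 1) (a : (AA m n)) : W z (nrm z a) = 0 := by
  apply pr_eq_zero
  intro b
  rw [hW.symm, nrm_symm, pr_comm, nrm_symm, pr_comm, pr_nrm, hW.tan1 z h1 h2, hW.tan2 z h1 h2]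
  ring

theorem nrm_nrm {z : (AA m n)} (h1 : ‖z.1‖ = 1) (h2 : ‖z.2‖ = 1) (a : (AA m n)) :
    nrm z (nrm z a) = nrm z a := by
  rw [nrm_apply, nrm_apply]
  simp only [inner_smul_right, real_inner_self_eq_norm_sq, h1, h2]
  simp

/-- the full matrix -/
theorem full_inj {z : (AA m n)} (h1 : ‖z.1‖ = 1) (h2 : ‖z.2‖ = 1) {a : (AA m n)}
    (h : (W z + nrm z) a = 0) : a = 0 := by
  have e0 : W z a + nrm z a = 0 := h
  -- decompose
  set n := nrm z a with hn
  set t := a - n with ht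
  have hWt : W z t = W z a := by rw [ht, map_sub, hn, W_nrm hW h1 h2, sub_zero]
  have ht1 : ⟪z.1, t.1⟫ = 0 := by
    rw [ht, hn, nrm_apply]
    simp only [Prod.fst_sub, inner_sub_right, inner_smul_right, real_inner_self_eq_norm_sq, h1]
    ring
  have ht2 : ⟪z.2, t.2⟫ = 0 := by
    rw [ht, hn, nrm_apply]
    simp only [Prod.snd_sub, inner_sub_right, inner_smul_right, real_inner_self_eq_norm_sq, h2]
    ring
  have hn0 : n = 0 := by
    have e1 : nrm z (W z a + n) = nrm z 0 := by rw [e0]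
    rw [map_add, map_zero, hn, nrm_nrm hW h1 h2] at e1
    have e2 : nrm z (W z a) = 0 := by
      rw [nrm_apply, hW.tan1 z h1 h2, hW.tan2 z h1 h2]
      simp
    rw [e2, zero_add] at e1
    exact e1
  have hW0 : W z t = 0 := by
    rw [hWt]
    rw [hn0, add_zero] at e0
    exact e0
  by_contra hne
  have hta : t = a := by rw [ht, hn0, sub_zero]
  have := hW.pos z h1 h2 t ht1 ht2 (by rw [hta]; exact hne)
  rw [hW0] at this
  simp [pr] at this

theorem full_isUnit {z : (AA m n)} (h1 : ‖z.1‖ = 1) (h2 : ‖z.2‖ = 1) : IsUnit (W z + nrm z) := by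
  rw [ContinuousLinearMap.isUnit_iff_bijective]
  have hinj : Function.Injective (W z + nrm z) := by
    intro a b hab
    have : (W z + nrm z) (a - b) = 0 := by rw [map_sub, hab, sub_self]
    exact sub_eq_zero.1 (full_inj hW h1 h2 this)
  exact ⟨hinj, (LinearMap.injective_iff_surjective (f := (W z + nrm z).toLinearMap)).1 hinj⟩

end

/-- the inverse matrix -/
def gi6 (W : (AA m n) → (AA m n) →L[ℝ] (AA m n)) (z : (AA m n)) : (AA m n) →L[ℝ] (AA m n) := Ring.inverse (W z + nrm z)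

section

variable [Nontrivial (EM m n)] {W : (AA m n) → (AA m n) →L[ℝ] (AA m n)} (hW : Cometric W)

include hW

theorem full_gi {z : (AA m n)} (h1 : ‖z.1‖ = 1) (h2 : ‖z.2‖ = 1) (a : (AA m n)) :
    (W z + nrm z) (gi6 W z a) = a := by
  have h := Ring.mul_inverse_cancel _ (full_isUnit hW h1 h2)
  exact congrArg (fun L : (AA m n) →L[ℝ] (AA m n) => L a) h

theorem gi_full {z : (AA m n)} (h1 : ‖z.1‖ = 1) (h2 : ‖z.2‖ = 1) (a : (AA m n)) :
    gi6 W z ((W z + nrm z) a) = a := by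
  have h := Ring.inverse_mul_cancel _ (full_isUnit hW h1 h2)
  exact congrArg (fun L : (AA m n) →L[ℝ] (AA m n) => L a) h

theorem gi_symm {z : (AA m n)} (h1 : ‖z.1‖ = 1) (h2 : ‖z.2‖ = 1) (a b : (AA m n)) :
    pr (gi6 W z a) b = pr a (gi6 W z b) := by
  conv_lhs => rw [← full_gi hW h1 h2 b]
  conv_rhs => rw [← full_gi hW h1 h2 a]
  change pr (gi6 W z a) (W z (gi6 W z b) + nrm z (gi6 W z b)) =
    pr (W z (gi6 W z a) + nrm z (gi6 W z a)) (gi6 W z b)
  rw [pr_add_left, pr_add_right, hW.symm, nrm_symm]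

/-- on the image of `W` -/
theorem gi_W {z : (AA m n)} (h1 : ‖z.1‖ = 1) (h2 : ‖z.2‖ = 1) (a : (AA m n)) :
    gi6 W z (W z a) = a - nrm z a := by
  have e : (W z + nrm z) (a - nrm z a) = W z a := by
    change W z (a - nrm z a) + nrm z (a - nrm z a) = W z a
    rw [map_sub, map_sub, W_nrm hW h1 h2, nrm_nrm hW h1 h2]
    abel
  rw [← e, gi_full hW h1 h2]

theorem smooth_gi (p : (MM m n)) : ContMDiffAt (IM m n) 𝓘(ℝ, (AA m n) →L[ℝ] (AA m n)) ∞ (fun p => gi6 W (zz p)) p := by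
  have hz : ContMDiff (IM m n) 𝓘(ℝ, (AA m n)) ∞ zz := contMDiff_P1.prodMk_space contMDiff_P2
  obtain ⟨u, hu⟩ := full_isUnit hW (z := zz p) (norm_P1 p) (norm_P2 p)
  have h1 : ContDiffAt ℝ ∞ Ring.inverse (W (zz p) + nrm (zz p)) := by
    rw [← hu]
    exact contDiffAt_ringInverse ℝ u
  have h2 : ContDiffAt ℝ ∞ (fun z => W z + nrm z) (zz p) :=
    (hW.smooth.add smooth_nrm).contDiffAt
  have h3 : ContDiffAt ℝ ∞ (gi6 W) (zz p) := h1.comp (zz p) h2
  exact ContDiffAt.comp_contMDiffAt (g := gi6 W) (f := zz) h3 (hz p)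

/-- positivity on tangent vectors -/
theorem gi_pos {z : (AA m n)} (h1 : ‖z.1‖ = 1) (h2 : ‖z.2‖ = 1) {a : (AA m n)} (ha : a ≠ 0) :
    0 < pr a (gi6 W z a) := by
  set b := gi6 W z a with hb
  have hab : a = (W z + nrm z) b := (full_gi hW h1 h2 a).symm
  have hb0 : b ≠ 0 := by
    intro h
    rw [h, map_zero] at hab
    exact ha hab
  have e : pr a b = pr b (W z b) + (⟪z.1, b.1⟫ * ⟪z.1, b.1⟫ + ⟪z.2, b.2⟫ * ⟪z.2, b.2⟫) := by
    rw [hab]
    change pr (W z b + nrm z b) b = _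
    rw [pr_add_left, pr_nrm, pr_comm (W z b)]
  rw [e]
  set n := nrm z b with hn
  set t := b - n with ht
  have hWt : W z t = W z b := by rw [ht, map_sub, hn, W_nrm hW h1 h2, sub_zero]
  have ht1 : ⟪z.1, t.1⟫ = 0 := by
    rw [ht, hn, nrm_apply]
    simp only [Prod.fst_sub, inner_sub_right, inner_smul_right, real_inner_self_eq_norm_sq, h1]
    ring
  have ht2 : ⟪z.2, t.2⟫ = 0 := by
    rw [ht, hn, nrm_apply]
    simp only [Prod.snd_sub, inner_sub_right, inner_smul_right, real_inner_self_eq_norm_sq, h2]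
    ring
  have e2 : pr b (W z b) = pr t (W z t) := by
    rw [hWt]
    have : pr n (W z b) = 0 := by
      rw [hn, ← hW.symm, W_nrm hW h1 h2]
      simp [pr]
    rw [ht, pr_sub_left, this, sub_zero]
  rw [e2]
  by_cases htz : t = 0
  · rw [htz]
    have hbn : b = n := by
      rw [ht] at htz
      exact sub_eq_zero.1 htz
    have : 0 < ⟪z.1, b.1⟫ * ⟪z.1, b.1⟫ + ⟪z.2, b.2⟫ * ⟪z.2, b.2⟫ := by
      by_contra hcon
      have q1 : ⟪z.1, b.1⟫ = (0 : ℝ) := by
        nlinarith [mul_self_nonneg (⟪z.1, b.1⟫ : ℝ), mul_self_nonneg (⟪z.2, b.2⟫ : ℝ)]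
      have q2 : ⟪z.2, b.2⟫ = (0 : ℝ) := by
        nlinarith [mul_self_nonneg (⟪z.1, b.1⟫ : ℝ), mul_self_nonneg (⟪z.2, b.2⟫ : ℝ)]
      apply hb0
      rw [hbn, hn, nrm_apply, q1, q2]
      simp
    have h0 : pr (0 : (AA _ _)) (W z 0) = 0 := by simp [pr]
    rw [h0]
    linarith
  · have := hW.pos z h1 h2 t ht1 ht2 htz
    nlinarith [mul_self_nonneg (⟪z.1, b.1⟫ : ℝ), mul_self_nonneg (⟪z.2, b.2⟫ : ℝ)]

theorem dd_eq_sum (p : (MM m n)) (v : TangentSpace (IM m n) p) :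
    dd p v = ∑ q, mvfderiv (IM m n) (co q) p v • eps q := by
  have k1 : ∀ i, mvfderiv (IM m n) (co (.inl i)) p v = (d1 p v) i := by
    intro i
    rw [d_co]
    change ⟪bv i, d1 p v⟫ + ⟪(0 : EV (n + 1)), d2 p v⟫ = _
    rw [inner_zero_left, add_zero, inner_bv]
  have k2 : ∀ i, mvfderiv (IM m n) (co (.inr i)) p v = (d2 p v) i := by
    intro i
    rw [d_co]
    change ⟪(0 : EV (m + 1)), d1 p v⟫ + ⟪bv i, d2 p v⟫ = _
    rw [inner_zero_left, zero_add, inner_bv]
  rw [Fintype.sum_sum_type]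
  simp only [k1, k2]
  have e1 : ∀ i, eps (.inl i) = ((bv i, 0) : (AA m n)) := fun _ => rfl
  have e2 : ∀ i, eps (.inr i) = ((0, bv i) : (AA m n)) := fun _ => rfl
  simp only [e1, e2]
  refine Prod.ext ?_ ?_
  · rw [Prod.fst_add, Prod.fst_sum, Prod.fst_sum]
    simp only [Prod.smul_mk, smul_zero, Finset.sum_const_zero, add_zero]
    exact (sum_bv _).symm
  · rw [Prod.snd_add, Prod.snd_sum, Prod.snd_sum]
    simp only [Prod.smul_mk, smul_zero, Finset.sum_const_zero, zero_add]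
    exact (sum_bv _).symm

/-- coefficients of the metric -/
def ac (W : (AA m n) → (AA m n) →L[ℝ] (AA m n)) (q r : (Ix m n)) (p : (MM m n)) : ℝ := pr (eps q) (gi6 W (zz p) (eps r))

theorem form_eq (p : (MM m n)) (v w : TangentSpace (IM m n) p) :
    fr.form (ac W) p v w = pr (dd p v) (gi6 W (zz p) (dd p w)) := by
  have a1 : ∀ y, pr (dd p v) y = ∑ i, mvfderiv (IM m n) (co i) p v * pr (eps i) y := by
    intro y
    rw [dd_eq_sum hW, ← prB_apply, map_sum, sum_apply]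
    refine Finset.sum_congr rfl fun i _ => ?_
    rw [map_smul, smul_apply, smul_eq_mul, prB_apply]
  have a2 : ∀ y, pr y (gi6 W (zz p) (dd p w)) =
      ∑ j, mvfderiv (IM m n) (co j) p w * pr y (gi6 W (zz p) (eps j)) := by
    intro y
    rw [dd_eq_sum hW, ← prB_apply, map_sum, map_sum]
    refine Finset.sum_congr rfl fun i _ => ?_
    rw [map_smul, map_smul, smul_eq_mul, prB_apply]
  rw [FrameData.form_apply, a1]
  refine Finset.sum_congr rfl fun i _ => ?_
  rw [a2, Finset.mul_sum]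
  refine Finset.sum_congr rfl fun j _ => ?_
  change pr (eps i) (gi6 W (zz p) (eps j)) * (mvfderiv (IM m n) (co i) p v * mvfderiv (IM m n) (co j) p w) = _
  ring

theorem smooth_ac (q r : (Ix m n)) : Sm (IM m n) (ac W q r) := by
  intro p
  have h1 := smooth_gi hW p
  have h2 : ContMDiffAt (IM m n) 𝓘(ℝ, (AA m n)) ∞ (fun p => gi6 W (zz p) (eps r)) p :=
    h1.clm_apply contMDiffAt_const
  exact ContDiffAt.comp_contMDiffAt (g := prB (eps q)) (f := fun p => gi6 W (zz p) (eps r))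
    ((prB (eps q)).contDiff.contDiffAt) h2

theorem ac_symm (q r : (Ix m n)) (p : (MM m n)) : ac W q r p = ac W r q p := by
  rw [ac, ac, ← gi_symm hW (z := zz p) (norm_P1 p) (norm_P2 p), pr_comm]

theorem ac_pos (p : (MM m n)) (v : TangentSpace (IM m n) p) (hv : v ≠ 0) : 0 < fr.form (ac W) p v v := by
  rw [form_eq hW]
  apply gi_pos hW (z := zz p) (norm_P1 p) (norm_P2 p)
  intro h0
  apply hv
  apply d_inj p
  · rw [map_zero]
    exact congrArg Prod.fst h0
  · rw [map_zero]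
    exact congrArg Prod.snd h0

theorem exists_metric :
    ∃ g : ContMDiffRiemannianMetric (IM m n) ∞ (EM m n)
      (fun x : (MM m n) => TangentSpace (IM m n) x), IsDual g W := by
  refine ⟨fr.metric (ac W) (smooth_ac hW) (ac_symm hW) (ac_pos hW), ?_⟩
  intro p e X hX v
  change fr.form (ac W) p X v = _
  rw [form_eq hW, hX, ← gi_symm hW (z := zz p) (norm_P1 p) (norm_P2 p), gi_W hW (z := zz p) (norm_P1 p) (norm_P2 p),
    pr_sub_left, pr_nrm]
  have h1 : ⟪(zz p).1, (dd p v).1⟫ = (0 : ℝ) := d1_orth p v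
  have h2 : ⟪(zz p).2, (dd p v).2⟫ = (0 : ℝ) := d2_orth p v
  rw [h1, h2]
  ring

end

end Pool.Agent.H821R5.SP
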